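import Pool.Agent.H264.GM174.R2a

/-!
# Project GM (helper174), part R2: boundary values vanish (helper264)
-/

set_option autoImplicit false

namespace Pool.Agent.H264.GM174

open Finset
open Pool.Agent.H174.GM

section gen

variable {R : Type*} [CommRing R] {k : ℕ}

theorem psi_mem (S : Subring R) (X : Fin k → R) (h : ∀ i, X i ∈ S) : psi X ∈ S := by
  have h1 := psi_map S.subtype (fun i => (⟨X i, h i⟩ : S))
  have h2 : (fun i => S.subtype ((fun i => (⟨X i, h i⟩ : S)) i)) = X := rfl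
  rw [h2] at h1
  rw [← h1]
  exact SetLike.coe_mem _

theorem ff_mem (S : Subring R) (a : Fin k → ℕ) (X : Fin k → R) (h : ∀ i, X i ∈ S) :
    ff a X ∈ S := by
  have h1 := ff_map S.subtype a (fun i => (⟨X i, h i⟩ : S))
  have h2 : (fun i => S.subtype ((fun i => (⟨X i, h i⟩ : S)) i)) = X := rfl
  rw [h2] at h1
  rw [← h1]
  exact SetLike.coe_mem _

theorem PP_sym (j : Fin k) (T : Finset (Fin k)) (hj : j ∉ T) (g : Fin k → Fin k → R)
    (hg : ∀ q, g q j = g j q) : PP (insert j T) g = (∏ q ∈ T, g j q) * PP T g := by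
  rw [PP_insert j T hj 1 g fun q => by rw [hg, one_mul]]
  have h1 : ∏ q ∈ T, (if q < j then (1 : R) else 1) = 1 :=
    Finset.prod_eq_one fun q _ => by rw [ite_self]
  rw [h1, one_mul]

theorem d2_comm (u v : R) : d2 u v = d2 v u := by
  unfold d2
  ring

theorem dd_fac (j : Fin k) (S : Finset (Fin k)) (hU : univ = insert j S) (hj : j ∉ S)
    (X : Fin k → R) : dd X = (∏ r ∈ S, d2 (uu (X j)) (uu (X r))) *
      PP S (fun p r => d2 (uu (X p)) (uu (X r))) := by
  have h1 : dd X = PP univ (fun p r => d2 (uu (X p)) (uu (X r))) :=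
    PP_univ (fun p r => d2 (uu (X p)) (uu (X r)))
  rw [h1, hU, PP_sym j S hj _ fun q => d2_comm _ _]

theorem db_fac (j q : Fin k) (S T : Finset (Fin k)) (hU : univ = insert j S) (hS : S = insert q T)
    (hj : j ∉ S) (hq : q ∉ T) (X : Fin k → R) : db X =
      ((1 - 2 * X j) * ((1 - 2 * X q) * ∏ r ∈ T, (1 - 2 * X r))) *
      ((∏ r ∈ S, if r < j then (-1 : R) else 1) *
        ((uu (X j) - uu (X q)) * ∏ r ∈ T, (uu (X j) - uu (X r))) *
      ((∏ r ∈ T, if r < q then (-1 : R) else 1) * (∏ r ∈ T, (uu (X q) - uu (X r))) *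
        PP T (fun p r => uu (X p) - uu (X r)))) := by
  have e1 : ∏ i, (1 - 2 * X i) = (1 - 2 * X j) * ((1 - 2 * X q) * ∏ r ∈ T, (1 - 2 * X r)) := by
    rw [hU, Finset.prod_insert hj, hS, Finset.prod_insert hq]
  have e2 : ∏ p ∈ pairs k, (X p.1 - X p.2) * (1 - X p.1 - X p.2) =
      PP univ (fun p r => uu (X p) - uu (X r)) := by
    rw [← PP_univ]
    refine Finset.prod_congr rfl fun p _ => ?_
    unfold uu
    ring
  have e3 : PP univ (fun p r => uu (X p) - uu (X r)) =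
      (∏ r ∈ S, if r < j then (-1 : R) else 1) * (∏ r ∈ S, (uu (X j) - uu (X r))) *
        PP S (fun p r => uu (X p) - uu (X r)) := by
    rw [hU, PP_insert j S hj (-1) (fun p r => uu (X p) - uu (X r)) fun r => by ring]
  have e4 : PP S (fun p r => uu (X p) - uu (X r)) =
      (∏ r ∈ T, if r < q then (-1 : R) else 1) * (∏ r ∈ T, (uu (X q) - uu (X r))) *
        PP T (fun p r => uu (X p) - uu (X r)) := by
    rw [hS, PP_insert q T hq (-1) (fun p r => uu (X p) - uu (X r)) fun r => by ring]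
  have e5 : ∏ r ∈ S, (uu (X j) - uu (X r)) =
      (uu (X j) - uu (X q)) * ∏ r ∈ T, (uu (X j) - uu (X r)) := by
    rw [hS, Finset.prod_insert hq]
  unfold db
  rw [e1, e2, e3, e4, e5]

end gen

section field

variable {K : Type*} [Field K]

theorem d2_key (a y u : K) (hay : a * y = 1) :
    d2 (uu a) u * d2 (uu y) u = (uu a - u) * (uu y - u) * (1 - uu a * uu y * u) ^ 2 := by
  have hy : y ≠ 0 := right_ne_zero_of_mul_eq_one hay
  have ha : a = y⁻¹ := eq_inv_of_mul_eq_one_left hay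
  rw [ha]
  unfold d2 uu
  field_simp
  ring

theorem bar_form (N : ℕ) (U M PPd ps f uj : K) :
    (U ^ N * PPd)⁻¹ * ps * f / (uj ^ N * M) = ps * f / ((M * PPd) * (uj * U) ^ N) := by
  rw [mul_pow, div_eq_mul_inv, div_eq_mul_inv]
  simp only [mul_inv]
  ring

theorem aeval_mem [Algebra ℚ K] (L : Subfield K) {k : ℕ} (p : MvPolynomial (Fin k) ℚ)
    (j q : Fin k) (hj : p.degreeOf j = 0) (hq : p.degreeOf q = 0) (X : Fin k → K)
    (hX : ∀ i, i ≠ j → i ≠ q → X i ∈ L) : MvPolynomial.aeval X p ∈ L := by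
  rw [MvPolynomial.aeval_def, MvPolynomial.eval₂_eq]
  refine L.sum_mem fun d hd => L.mul_mem ?_ (L.prod_mem fun i hi => L.pow_mem ?_ _)
  · rw [eq_ratCast]
    exact SubfieldClass.ratCast_mem L _
  · have h1 := MvPolynomial.monomial_le_degreeOf j hd
    have h2 := MvPolynomial.monomial_le_degreeOf q hd
    rw [hj] at h1
    rw [hq] at h2
    have h3 := Finsupp.mem_support_iff.1 hi
    refine hX i ?_ ?_
    · rintro rfl
      omega
    · rintro rfl
      omega

theorem evalmap_mem {A : Type*} [CommRing A] (S : Subring K) (φ : A →+* K) (Q : Polynomial A)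
    (y : K) (hc : ∀ n, φ (Q.coeff n) ∈ S) (hy : y ∈ S) : (Q.map φ).eval y ∈ S := by
  rw [Polynomial.eval_map, Polynomial.eval₂_eq_sum_range]
  exact S.sum_mem fun i _ => S.mul_mem (hc i) (S.pow_mem hy i)

end field

section hahn

variable {k : ℕ}

/-- the elements which do not involve `x_j` -/
def FS (h9 : S_XF) (j : Fin k) : Subfield (E k) where
  carrier := {f | Free j f}
  mul_mem' := fun {a b} ha hb => ((h9 k j).2.2.2.2.2.2.1 a b ha hb).2
  one_mem' := by
    have h := (h9 k j).2.2.2.2.2.1 1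
    rw [map_one] at h
    exact h
  add_mem' := fun {a b} ha hb => ((h9 k j).2.2.2.2.2.2.1 a b ha hb).1
  zero_mem' := by
    have h := (h9 k j).2.2.2.2.2.1 0
    rw [map_zero] at h
    exact h
  neg_mem' := fun {a} ha => ((h9 k j).2.2.2.2.2.2.2 a ha).1
  inv_mem' := fun a ha => ((h9 k j).2.2.2.2.2.2.2 a ha).2

/-- the elements which are regular in `x_j` -/
def GS (h9 : S_XF) (h6 : S_EH1) (j : Fin k) : Subring (E k) where
  carrier := {f | Ge j 0 f}
  mul_mem' := fun {a b} ha hb => by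
    have h := (h6 k j 0 0 a b).1 ha hb
    rw [add_zero] at h
    exact h
  one_mem' := ((FS h9 j).one_mem : Free j 1).1
  add_mem' := fun {a b} ha hb => (h6 k j 0 0 a b).2.2.1 ha hb
  zero_mem' := ((FS h9 j).zero_mem : Free j 0).1
  neg_mem' := fun {a} ha => (h6 k j 0 0 a a).2.2.2.2.1 ha

theorem FS_le (h9 : S_XF) (h6 : S_EH1) (j : Fin k) {f : E k} (h : f ∈ FS h9 j) :
    f ∈ GS h9 h6 j := (h : Free j f).1

theorem xx_mem (h9 : S_XF) (j i : Fin k) (h : i ≠ j) : (xx i : E k) ∈ FS h9 j :=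
  (h9 k j).2.2.2.1 i h

theorem uu_mem (L : Subfield (E k)) {f : E k} (h : f ∈ L) : uu f ∈ L :=
  L.mul_mem h (L.sub_mem L.one_mem h)

theorem d2_mem (L : Subfield (E k)) {f g : E k} (hf : f ∈ L) (hg : g ∈ L) : d2 f g ∈ L := by
  have h3 : (3 : E k) ∈ L := by
    have h : ((3 : ℕ) : E k) ∈ L := natCast_mem L 3
    exact_mod_cast h
  unfold d2
  exact L.add_mem (L.sub_mem (L.add_mem hf hg) (L.mul_mem (L.mul_mem h3 hf) hg))
    (L.mul_mem (L.pow_mem hf 2) (L.pow_mem hg 2))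

theorem PP_mem (L : Subfield (E k)) (T : Finset (Fin k)) (g : Fin k → Fin k → E k)
    (h : ∀ p ∈ T, ∀ r ∈ T, g p r ∈ L) : PP T g ∈ L := by
  unfold PP
  refine L.prod_mem fun p hp => L.prod_mem fun r hr => ?_
  split_ifs
  · exact h p hp r hr
  · exact L.one_mem

theorem sgn_mem (L : Subfield (E k)) (T : Finset (Fin k)) (j : Fin k) :
    (∏ r ∈ T, if r < j then (-1 : E k) else 1) ∈ L := by
  refine L.prod_mem fun r _ => ?_
  split_ifs
  · exact L.neg_mem L.one_mem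
  · exact L.one_mem

end hahn

section main

variable {k : ℕ}

/-- the variables with `x_j` replaced by `a` -/
noncomputable def Xa (j : Fin k) (a : E k) : Fin k → E k := fun i => if i = j then a else xx i

/-- the variables with `x_j` replaced by the indeterminate -/
noncomputable def XT (j : Fin k) : Fin k → Polynomial (E k) :=
  fun i => if i = j then Polynomial.X else Polynomial.C (xx i)

theorem XT_eval (j : Fin k) (a : E k) (i : Fin k) : (XT j i).eval a = Xa j a i := by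
  unfold XT Xa
  split_ifs
  · exact Polynomial.eval_X
  · exact Polynomial.eval_C

theorem Xa_self (j : Fin k) : Xa j (xx j) = xx := by
  funext i
  unfold Xa
  split_ifs with h
  · rw [h]
  · rfl

/-- the polynomial -/
noncomputable def PT (j : Fin k) (κ : E k) (b : Fin k → ℕ) (σ : Equiv.Perm (Fin k)) :
    Polynomial (E k) := Polynomial.C κ * psi (XT j) * ff b (XT j ∘ σ)

theorem PT_eval (j : Fin k) (κ : E k) (b : Fin k → ℕ) (σ : Equiv.Perm (Fin k)) (a : E k) :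
    (PT j κ b σ).eval a = κ * psi (Xa j a) * ff b (Xa j a ∘ σ) := by
  unfold PT
  rw [Polynomial.eval_mul, Polynomial.eval_mul, Polynomial.eval_C]
  have h1 := psi_map (Polynomial.evalRingHom a) (XT j)
  have h2 := ff_map (Polynomial.evalRingHom a) b (XT j ∘ σ)
  have h3 : (fun i => Polynomial.evalRingHom a (XT j i)) = Xa j a := by
    funext i
    exact XT_eval j a i
  have h4 : (fun i => Polynomial.evalRingHom a ((XT j ∘ σ) i)) = Xa j a ∘ σ := by
    funext i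
    exact XT_eval j a (σ i)
  rw [h3] at h1
  rw [h4] at h2
  rw [← h1, ← h2]
  rfl

theorem PT_free (h9 : S_XF) (j : Fin k) (κ : E k) (hκ : κ ∈ FS h9 j) (b : Fin k → ℕ)
    (σ : Equiv.Perm (Fin k)) (i : ℕ) : Free j ((PT j κ b σ).coeff i) := by
  have hX : ∀ i, XT j i ∈ Polynomial.liftsRing (FS h9 j).subtype := by
    intro i
    rw [← Polynomial.lifts_iff_liftsRing]
    unfold XT
    split_ifs with h
    · exact Polynomial.X_mem_lifts _
    · exact Polynomial.C'_mem_lifts ⟨⟨xx i, xx_mem h9 j i h⟩, rfl⟩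
  have h1 : PT j κ b σ ∈ Polynomial.lifts (FS h9 j).subtype := by
    rw [Polynomial.lifts_iff_liftsRing]
    unfold PT
    refine Subring.mul_mem _ (Subring.mul_mem _ ?_ (psi_mem _ _ hX)) (ff_mem _ _ _ fun i => hX _)
    rw [← Polynomial.lifts_iff_liftsRing]
    exact Polynomial.C'_mem_lifts ⟨⟨κ, hκ⟩, rfl⟩
  obtain ⟨f, hf⟩ := (Polynomial.lifts_iff_coeff_lifts _).1 h1 i
  rw [← hf]
  exact f.2

theorem PT_deg (hk : 0 < k) (κ : E k) (b : Fin k → ℕ) (hb : b ⟨0, hk⟩ = 0)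
    (σ : Equiv.Perm (Fin k)) :
    (PT (σ ⟨0, hk⟩) κ b σ).natDegree ≤ (3 * k - 2) + 2 * (k - 1) := by
  unfold PT
  have h1 : ∀ i, i ≠ σ ⟨0, hk⟩ → (XT (σ ⟨0, hk⟩) i).natDegree = 0 := by
    intro i hi
    unfold XT
    rw [if_neg hi, Polynomial.natDegree_C]
  have h2 : (XT (σ ⟨0, hk⟩) (σ ⟨0, hk⟩)).natDegree ≤ 1 := by
    unfold XT
    rw [if_pos rfl]
    exact Polynomial.natDegree_X_le
  have h3 := nd_psi (σ ⟨0, hk⟩) (XT (σ ⟨0, hk⟩)) h2 h1
  have h4 := nd_ff b ⟨0, hk⟩ (XT (σ ⟨0, hk⟩) ∘ σ) h2 fun i hi => h1 _ fun h => hi (σ.injective h)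
  rw [hb, zero_add] at h4
  refine Polynomial.natDegree_mul_le.trans (add_le_add ?_ h4)
  refine Polynomial.natDegree_mul_le.trans ?_
  rw [Polynomial.natDegree_C, zero_add]
  exact h3

theorem PT_odd (h5 : S_FLIP) (hk : 0 < k) (κ : E k) (b : Fin k → ℕ) (hb : b ⟨0, hk⟩ = 0)
    (σ : Equiv.Perm (Fin k)) :
    (PT (σ ⟨0, hk⟩) κ b σ).comp (1 - Polynomial.X) = -(PT (σ ⟨0, hk⟩) κ b σ) := by
  set j := σ ⟨0, hk⟩ with hj
  have hc : ∀ i, (XT j i).comp (1 - Polynomial.X) = flp (fun i => decide (i = j)) (XT j) i := by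
    intro i
    unfold flp XT
    by_cases h : i = j
    · rw [if_pos h, if_pos (decide_eq_true h), Polynomial.X_comp]
    · rw [if_neg h, if_neg (by rw [decide_eq_true_iff]; exact h), Polynomial.C_comp]
  have h1 := psi_map (Polynomial.compRingHom (1 - Polynomial.X)) (XT j)
  have h2 := ff_map (Polynomial.compRingHom (1 - Polynomial.X)) b (XT j ∘ σ)
  have h3 : (fun i => Polynomial.compRingHom (1 - Polynomial.X) (XT j i)) =
      flp (fun i => decide (i = j)) (XT j) := by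
    funext i
    exact hc i
  have h4 : (fun i => Polynomial.compRingHom (1 - Polynomial.X) ((XT j ∘ σ) i)) =
      flp (fun i => decide (i = j)) (XT j) ∘ σ := by
    funext i
    exact hc (σ i)
  rw [h3] at h1
  rw [h4] at h2
  have h6 : psi (flp (fun i => decide (i = j)) (XT j)) = -psi (XT j) := by
    have h7 := (h5 (Polynomial (E k)) k (XT j) (fun i => decide (i = j))).1 (st k)
    have h8 : sg (fun i : Fin k => decide (i = j)) = -1 := by
      unfold sg
      rw [Finset.prod_eq_single j]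
      · rw [if_pos (decide_eq_true rfl)]
      · intro i _ hi
        rw [if_neg (by rw [decide_eq_true_iff]; exact hi)]
      · intro h
        exact absurd (Finset.mem_univ j) h
    rw [h8, neg_one_zsmul] at h7
    exact h7
  have h7 : ff b (flp (fun i => decide (i = j)) (XT j) ∘ σ) = ff b (XT j ∘ σ) := by
    refine ff_first hk b hb _ _ ?_ ?_
    · show uu (flp (fun i => decide (i = j)) (XT j) (σ ⟨0, hk⟩)) = uu (XT j (σ ⟨0, hk⟩))
      rw [← hj]
      unfold flp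
      rw [if_pos (decide_eq_true rfl)]
      unfold uu
      ring
    · intro i hi
      show flp (fun i => decide (i = j)) (XT j) (σ i) = XT j (σ i)
      have h8 : σ i ≠ j := fun h => hi (σ.injective h)
      unfold flp
      rw [if_neg (by rw [decide_eq_true_iff]; exact h8)]
  have h8 : (psi (XT j)).comp (1 - Polynomial.X) = -psi (XT j) := h1.trans h6
  have h9 : (ff b (XT j ∘ σ)).comp (1 - Polynomial.X) = ff b (XT j ∘ σ) := h2.trans h7
  unfold PT
  rw [Polynomial.mul_comp, Polynomial.mul_comp, Polynomial.C_comp, h8, h9]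
  ring

/-- the root `(1 - x_q)⁻¹` -/
theorem root2 (hk : 0 < k) (N : ℕ) (hN : 1 ≤ N) (κ : E k)
    (b : Fin k → ℕ) (σ : Equiv.Perm (Fin k)) (q : Fin k) (hq : q ≠ σ ⟨0, hk⟩) :
    Cof (σ ⟨0, hk⟩) q N (PT (σ ⟨0, hk⟩) κ b σ) (1 - xx q)⁻¹ = 0 := by
  unfold Cof
  by_cases hy : (1 - xx q : E k) = 0
  · rw [hy, inv_zero]
    have h1 : uu (0 : E k) ^ N = 0 := by
      unfold uu
      rw [zero_mul, zero_pow (by omega)]
    rw [h1, mul_zero, zero_mul, div_zero]
  · rw [PT_eval]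
    have h1 : ff b (Xa (σ ⟨0, hk⟩) (1 - xx q)⁻¹ ∘ σ) = 0 := by
      unfold ff cc
      have hs : σ.symm q ≠ ⟨0, hk⟩ := fun h => hq (by rw [← h, Equiv.apply_symm_apply])
      have hlt : (⟨0, hk⟩ : Fin k) < σ.symm q := by
        rw [Fin.lt_def]
        have : (σ.symm q).1 ≠ 0 := fun h => hs (Fin.ext h)
        show 0 < (σ.symm q).1
        omega
      have h2 : ∏ p ∈ pairs k, mm (uu ((Xa (σ ⟨0, hk⟩) (1 - xx q)⁻¹ ∘ σ) p.1))
          ((Xa (σ ⟨0, hk⟩) (1 - xx q)⁻¹ ∘ σ) p.2) = 0 := by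
        refine Finset.prod_eq_zero (i := (⟨0, hk⟩, σ.symm q))
          (Finset.mem_filter.2 ⟨Finset.mem_univ _, hlt⟩) ?_
        show mm (uu (Xa (σ ⟨0, hk⟩) (1 - xx q)⁻¹ (σ ⟨0, hk⟩)))
          (Xa (σ ⟨0, hk⟩) (1 - xx q)⁻¹ (σ (σ.symm q))) = 0
        rw [Equiv.apply_symm_apply]
        have h3 : Xa (σ ⟨0, hk⟩) (1 - xx q)⁻¹ (σ ⟨0, hk⟩) = (1 - xx q)⁻¹ := by
          unfold Xa
          rw [if_pos rfl]
        have h4 : Xa (σ ⟨0, hk⟩) (1 - xx q)⁻¹ q = xx q := by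
          unfold Xa
          rw [if_neg hq]
        rw [h3, h4]
        unfold mm uu
        have h5 : (1 - xx q : E k)⁻¹ * (1 - xx q) = 1 := inv_mul_cancel₀ hy
        generalize (1 - xx q : E k)⁻¹ = a at h5
        linear_combination (-(a * (1 - xx q)) - xx q) * h5
      rw [h2, mul_zero]
    rw [h1, mul_zero, zero_div]

/-- the root `x_q⁻¹` -/
theorem root1 (h2 : S_LOC) (h3 : S_TR) (h6 : S_EH1) (h9 : S_XF) (hk : 0 < k) (m : ℕ)
    (b : Fin k → ℕ) (hb : StrictMono b) (hb0 : b ⟨0, hk⟩ = 0)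
    (σ : Equiv.Perm (Fin k)) (q : Fin k) (hq : q ≠ σ ⟨0, hk⟩) (κ : E k)
    (hκ : κ = ((∏ i ∈ univ.filter (fun i => i ≠ σ ⟨0, hk⟩), uu (xx i)) ^ (m + k + 1) *
      PP (univ.filter (fun i => i ≠ σ ⟨0, hk⟩)) (fun p r => d2 (uu (xx p)) (uu (xx r))))⁻¹) :
    Cof (σ ⟨0, hk⟩) q (m + k + 1) (PT (σ ⟨0, hk⟩) κ b σ) (xx q)⁻¹ ∈ GS h9 h6 q := by
  set j := σ ⟨0, hk⟩ with hj
  set S := univ.filter (fun i => i ≠ j) with hSdef
  unfold Cof
  by_cases hy0 : (xx q : E k) = 0
  · have h1 : uu (0 : E k) ^ (m + k + 1) = 0 := by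
      unfold uu
      rw [zero_mul, zero_pow (by omega)]
    rw [hy0, inv_zero, h1, mul_zero, zero_mul, div_zero]
    exact Subring.zero_mem _
  by_cases hy1 : (1 - xx q : E k) = 0
  · have h1 : uu ((xx q : E k)⁻¹) ^ (m + k + 1) = 0 := by
      have h2 : (xx q : E k) = 1 := (sub_eq_zero.1 hy1).symm
      unfold uu
      rw [h2, inv_one, sub_self, mul_zero, zero_pow (by omega)]
    rw [h1, mul_zero, zero_mul, div_zero]
    exact Subring.zero_mem _
  rw [PT_eval]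
  set T := univ.filter (fun r => r ≠ j ∧ r ≠ q) with hTdef
  have hU : (univ : Finset (Fin k)) = insert j S := by
    ext r
    rw [Finset.mem_insert, hSdef, Finset.mem_filter]
    exact ⟨fun _ => (em (r = j)).imp id fun h => ⟨Finset.mem_univ _, h⟩,
      fun _ => Finset.mem_univ _⟩
  have hST : S = insert q T := by
    ext r
    rw [Finset.mem_insert, hSdef, hTdef, Finset.mem_filter, Finset.mem_filter]
    constructor
    · rintro ⟨_, h⟩
      exact (em (r = q)).imp id fun h' => ⟨Finset.mem_univ _, h, h'⟩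
    · rintro (h | ⟨_, h, _⟩)
      · exact ⟨Finset.mem_univ _, by rw [h]; exact hq⟩
      · exact ⟨Finset.mem_univ _, h⟩
  have hjS : j ∉ S := fun h => (Finset.mem_filter.1 h).2 rfl
  have hqT : q ∉ T := fun h => (Finset.mem_filter.1 h).2.2 rfl
  have hT1 : ∀ r ∈ T, r ≠ j := fun r hr => (Finset.mem_filter.1 hr).2.1
  have hT2 : ∀ r ∈ T, r ≠ q := fun r hr => (Finset.mem_filter.1 hr).2.2
  set a : E k := (xx q)⁻¹ with ha
  have hay : a * xx q = 1 := inv_mul_cancel₀ hy0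
  set X : Fin k → E k := Xa j a with hX
  have hXj : X j = a := by
    rw [hX]
    unfold Xa
    rw [if_pos rfl]
  have hXr : ∀ r, r ≠ j → X r = xx r := by
    intro r hr
    rw [hX]
    unfold Xa
    rw [if_neg hr]
  have hXq : X q = xx q := hXr q hq
  have hprod : X j * X q = 1 := by rw [hXj, hXq, hay]
  obtain ⟨B, hB1, hB2, hB⟩ := h2 k j q (Ne.symm hq)
  have hbq : 1 ≤ b (σ.symm q) := by
    have hs : σ.symm q ≠ ⟨0, hk⟩ := fun h => hq (by rw [hj, ← h, Equiv.apply_symm_apply])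
    have hlt : (⟨0, hk⟩ : Fin k) < σ.symm q := by
      rw [Fin.lt_def]
      have : (σ.symm q).1 ≠ 0 := fun h => hs (Fin.ext h)
      show 0 < (σ.symm q).1
      omega
    have := hb hlt
    omega
  obtain ⟨Q, hQ1, hQ⟩ := h3 k hk σ b j q (Ne.symm hq) rfl hb0 hbq
  have hpsi := hB (E k) X hprod
  have hff := hQ (E k) X hprod
  have hdb := db_fac j q S T hU hST hjS hqT X
  have hA : (∏ r ∈ T, d2 (uu a) (uu (xx r))) * (∏ r ∈ T, d2 (uu (xx q)) (uu (xx r))) =
      (∏ r ∈ T, (uu (X j) - uu (X r))) * (∏ r ∈ T, (uu (X q) - uu (X r))) *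
        (∏ r ∈ T, (1 - uu (X j) * uu (X q) * uu (X r))) ^ 2 := by
    rw [← Finset.prod_mul_distrib, ← Finset.prod_mul_distrib, ← Finset.prod_pow,
      ← Finset.prod_mul_distrib]
    refine Finset.prod_congr rfl fun r hr => ?_
    rw [hXj, hXq, hXr r (hT1 r hr)]
    exact d2_key a (xx q) (uu (xx r)) hay
  have hκ' : κ = ((uu (xx q) * ∏ r ∈ T, uu (xx r)) ^ (m + k + 1) *
      ((∏ r ∈ T, d2 (uu (xx q)) (uu (xx r))) *
        PP T (fun p r => d2 (uu (xx p)) (uu (xx r)))))⁻¹ := by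
    rw [hκ, hST, Finset.prod_insert hqT, PP_sym q T hqT (fun p r => d2 (uu (xx p)) (uu (xx r)))
      fun r => d2_comm _ _]
  have hps : psi X = ((1 - 2 * a) * ((1 - 2 * xx q) * ∏ r ∈ T, (1 - 2 * X r))) *
      ((∏ r ∈ S, if r < j then (-1 : E k) else 1) *
        ((uu a - uu (xx q)) * ∏ r ∈ T, (uu (X j) - uu (X r))) *
      ((∏ r ∈ T, if r < q then (-1 : E k) else 1) * (∏ r ∈ T, (uu (X q) - uu (X r))) *
        PP T (fun p r => uu (X p) - uu (X r)))) *
      (∏ r ∈ T, (1 - uu (X j) * uu (X q) * uu (X r))) *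
      MvPolynomial.aeval (fun i => uu (X i)) B := by
    rw [hpsi, hdb, hXj, hXq]
  have hf' : xx q ^ (k - 1) * ff b (X ∘ σ) =
      (∏ r ∈ T, (1 - uu (X j) * uu (X q) * uu (X r))) *
        (Q.map (MvPolynomial.aeval X).toRingHom).eval (X q) := by
    rw [← hXq]
    exact hff
  have key := alg_key (m + k + 1) m (k - 1) (by omega) (xx q) a (∏ r ∈ T, uu (xx r)) _ _ _ _ _
    (PP T (fun p r => d2 (uu (xx p)) (uu (xx r)))) _ _ _ _ _ _ _ _ κ hA hay hy0 hy1 hps hf' hκ'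
  have hxr : ∀ r ∈ T, X r ∈ FS h9 q := fun r hr => by
    rw [hXr r (hT1 r hr)]
    exact xx_mem h9 q r (hT2 r hr)
  have hxr' : ∀ r ∈ T, (xx r : E k) ∈ FS h9 q := fun r hr => xx_mem h9 q r (hT2 r hr)
  have h2m : (2 : E k) ∈ FS h9 q := by
    have h : ((2 : ℕ) : E k) ∈ FS h9 q := natCast_mem _ 2
    exact_mod_cast h
  have hneg1 : (-1 : E k) ∈ FS h9 q := (FS h9 q).neg_mem (FS h9 q).one_mem
  have hL : (∏ r ∈ T, (1 - 2 * X r)) ∈ FS h9 q :=
    (FS h9 q).prod_mem fun r hr =>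
      (FS h9 q).sub_mem (FS h9 q).one_mem ((FS h9 q).mul_mem h2m (hxr r hr))
  have hPg : PP T (fun p r => uu (X p) - uu (X r)) ∈ FS h9 q :=
    PP_mem _ _ _ fun p hp r hr => (FS h9 q).sub_mem (uu_mem _ (hxr p hp)) (uu_mem _ (hxr r hr))
  have hPd : PP T (fun p r => d2 (uu (xx p)) (uu (xx r))) ∈ FS h9 q :=
    PP_mem _ _ _ fun p hp r hr => d2_mem _ (uu_mem _ (hxr' p hp)) (uu_mem _ (hxr' r hr))
  have hUm : (∏ r ∈ T, uu (xx r) : E k) ∈ FS h9 q :=
    (FS h9 q).prod_mem fun r hr => uu_mem _ (hxr' r hr)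
  have hBm : MvPolynomial.aeval (fun i => uu (X i)) B ∈ FS h9 q := by
    refine aeval_mem (FS h9 q) B j q hB1 hB2 _ fun i hi1 hi2 => uu_mem _ ?_
    rw [hXr i hi1]
    exact xx_mem h9 q i hi2
  have hxq : (xx q : E k) ∈ GS h9 h6 q := by
    have h1 := (h9 k q).2.1
    exact (h6 k q 1 0 (xx q) (xx q)).2.2.2.2.2.2.1 h1 (by norm_num)
  have hinv : ((1 - xx q : E k)⁻¹) ∈ GS h9 h6 q := ((h9 k q).2.2.2.2.1 q).2.2
  have hQm : (Q.map (MvPolynomial.aeval X).toRingHom).eval (X q) ∈ GS h9 h6 q := by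
    rw [hXq]
    refine evalmap_mem (GS h9 h6 q) _ Q _ (fun n => FS_le h9 h6 q ?_) hxq
    exact aeval_mem (FS h9 q) (Q.coeff n) j q (hQ1 n).1 (hQ1 n).2 X fun i hi1 hi2 => by
      rw [hXr i hi1]
      exact xx_mem h9 q i hi2
  rcases key with h | h
  · rw [h]
    exact Subring.zero_mem _
  · rw [h]
    refine Subring.mul_mem _ (FS_le h9 h6 q ?_) ?_
    · exact (FS h9 q).mul_mem ((FS h9 q).mul_mem ((FS h9 q).mul_mem ((FS h9 q).mul_mem
        ((FS h9 q).mul_mem ((FS h9 q).mul_mem ((FS h9 q).mul_mem (sgn_mem _ S j) (sgn_mem _ T q))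
          ((FS h9 q).pow_mem hneg1 _)) hL) hPg) hBm)
        ((FS h9 q).inv_mem ((FS h9 q).pow_mem hUm _))) ((FS h9 q).inv_mem hPd)
    · exact Subring.mul_mem _ (Subring.mul_mem _ (Subring.mul_mem _ (Subring.mul_mem _
        (Subring.sub_mem _ (Subring.one_mem _) hxq) (Subring.add_mem _ (Subring.one_mem _) hxq))
        (Subring.pow_mem _ hxq _)) (Subring.pow_mem _ hinv _)) hQm

theorem term (h1 : S_BAR) (h2 : S_LOC) (h3 : S_TR) (h5 : S_FLIP) (h6 : S_EH1) (h8 : S_EH3)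
    (h9 : S_XF) (hk : 0 < k) (m : ℕ) (b : Fin k → ℕ) (hb : StrictMono b) (hb0 : b ⟨0, hk⟩ = 0)
    (σ : Equiv.Perm (Fin k)) :
    res (psi (xx (k := k)) * ff b (xx ∘ σ) /
      (dd (xx (k := k)) * (∏ i, uu (xx (k := k) i)) ^ (m + k + 1))) = 0 := by
  set j := σ ⟨0, hk⟩ with hj
  set S := univ.filter (fun i => i ≠ j) with hSdef
  have hU : (univ : Finset (Fin k)) = insert j S := by
    ext r
    rw [Finset.mem_insert, hSdef, Finset.mem_filter]
    exact ⟨fun _ => (em (r = j)).imp id fun h => ⟨Finset.mem_univ _, h⟩,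
      fun _ => Finset.mem_univ _⟩
  have hjS : j ∉ S := fun h => (Finset.mem_filter.1 h).2 rfl
  have hS1 : ∀ r ∈ S, r ≠ j := fun r hr => (Finset.mem_filter.1 hr).2
  set κ : E k := ((∏ i ∈ S, uu (xx i)) ^ (m + k + 1) *
    PP S (fun p r => d2 (uu (xx p)) (uu (xx r))))⁻¹ with hκ
  have hxr : ∀ r ∈ S, (xx r : E k) ∈ FS h9 j := fun r hr => xx_mem h9 j r (hS1 r hr)
  have hκm : κ ∈ FS h9 j := by
    refine (FS h9 j).inv_mem ((FS h9 j).mul_mem ((FS h9 j).pow_mem
      ((FS h9 j).prod_mem fun r hr => uu_mem _ (hxr r hr)) _) ?_)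
    exact PP_mem _ _ _ fun p hp r hr => d2_mem _ (uu_mem _ (hxr p hp)) (uu_mem _ (hxr r hr))
  have hres0 : res (0 : E k) = 0 := by
    have h := (h8 k).1 0 0
    rw [add_zero] at h
    linarith
  have hbar := h1 k j (m + k + 1) (PT j κ b σ) (by omega) (PT_free h9 j κ hκm b σ)
    (PT_odd h5 hk κ b hb0 σ) ?_ ?_
  · rw [PT_eval, Xa_self, bar_form] at hbar
    have e1 := dd_fac j S hU hjS (xx (k := k))
    have e2 : (∏ i, uu (xx (k := k) i)) = uu (xx j) * ∏ i ∈ S, uu (xx i) := by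
      rw [hU, Finset.prod_insert hjS]
    rw [e1, e2]
    exact hbar
  · have h := PT_deg hk κ b hb0 σ
    rw [← hj] at h
    omega
  · intro q hq
    constructor
    · have h := root1 h2 h3 h6 h9 hk m b hb hb0 σ q hq κ hκ
      have h' : (xx j : E k)⁻¹ * Cof j q (m + k + 1) (PT j κ b σ) (xx q)⁻¹ ∈ GS h9 h6 q :=
        Subring.mul_mem _ (FS_le h9 h6 q ((FS h9 q).inv_mem (xx_mem h9 q j (Ne.symm hq)))) h
      exact (h8 k).2.2.1 q _ h'
    · have h := root2 hk (m + k + 1) (by omega) κ b σ q hq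
      rw [← hj] at h
      rw [h, mul_zero, hres0]

/-- **R2** -/
theorem r2 (h1 : S_BAR) (h2 : S_LOC) (h3 : S_TR) (_h4 : S_PERM) (h5 : S_FLIP) (h6 : S_EH1)
    (_h7 : S_EH2) (h8 : S_EH3) (h9 : S_XF) : Pool.Agent.H174.GM.S_R2 := by
  intro k hk m b hb hb0
  let resH : E k →+ ℚ := AddMonoidHom.mk' res (h8 k).1
  have hrH : ∀ f : E k, resH f = res f := fun _ => rfl
  unfold gres aa
  rw [Finset.mul_sum, Finset.sum_div, ← hrH, map_sum]
  refine Finset.sum_eq_zero fun σ _ => ?_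
  rw [mul_smul_comm, smul_div_assoc, map_zsmul, hrH, term h1 h2 h3 h5 h6 h8 h9 hk m b hb hb0 σ,
    smul_zero]

end main

end Pool.Agent.H264.GM174
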