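import Pool.Agent.H174.GM.Stmts2

/-!
# Project GM (helper174), part R2, general lemmas (helper264)
-/

set_option autoImplicit false

namespace Pool.Agent.H264.GM174

open Finset
open Pool.Agent.H174.GM

section maps

variable {R R' : Type*} [CommRing R] [CommRing R'] {k : ℕ}

theorem ff_map (φ : R →+* R') (a : Fin k → ℕ) (X : Fin k → R) :
    φ (ff a X) = ff a (fun i => φ (X i)) := by
  simp only [ff, cc, mm, uu, map_mul, map_prod, map_pow, map_add, map_sub, map_one]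

theorem flp_map (φ : R →+* R') (ε : Fin k → Bool) (X : Fin k → R) (i : Fin k) :
    φ (flp ε X i) = flp ε (fun i => φ (X i)) i := by
  unfold flp
  split_ifs
  · rw [map_sub, map_one]
  · rfl

theorem psi_map (φ : R →+* R') (X : Fin k → R) : φ (psi X) = psi (fun i => φ (X i)) := by
  unfold psi br aa
  rw [map_sum]
  refine Finset.sum_congr rfl fun ε _ => ?_
  rw [map_zsmul, map_sum]
  congr 1
  refine Finset.sum_congr rfl fun σ _ => ?_
  rw [map_zsmul, ff_map]
  congr 2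
  funext i
  exact flp_map φ ε X (σ i)

/-- the product over the pairs in `S` -/
def PP (S : Finset (Fin k)) (g : Fin k → Fin k → R) : R :=
  ∏ p ∈ S, ∏ q ∈ S, if p < q then g p q else 1

theorem PP_univ (g : Fin k → Fin k → R) : ∏ p ∈ pairs k, g p.1 p.2 = PP univ g := by
  unfold pairs PP
  rw [Finset.prod_filter, Fintype.prod_prod_type]

theorem PP_congr {S : Finset (Fin k)} {g g' : Fin k → Fin k → R}
    (h : ∀ p ∈ S, ∀ q ∈ S, g p q = g' p q) : PP S g = PP S g' := by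
  unfold PP
  refine Finset.prod_congr rfl fun p hp => Finset.prod_congr rfl fun q hq => ?_
  rw [h p hp q hq]

theorem PP_insert (j : Fin k) (T : Finset (Fin k)) (hj : j ∉ T) (c : R) (g : Fin k → Fin k → R)
    (hg : ∀ q, g q j = c * g j q) : PP (insert j T) g =
      (∏ q ∈ T, if q < j then c else 1) * (∏ q ∈ T, g j q) * PP T g := by
  unfold PP
  have h1 : ∏ p ∈ T, ∏ q ∈ insert j T, (if p < q then g p q else 1) =
      ∏ p ∈ T, ((if p < j then g p j else 1) * ∏ q ∈ T, (if p < q then g p q else 1)) :=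
    Finset.prod_congr rfl fun p _ => Finset.prod_insert hj
  rw [Finset.prod_insert hj, Finset.prod_insert hj, if_neg (lt_irrefl j), one_mul, h1,
    ← Finset.prod_mul_distrib, ← Finset.prod_mul_distrib, ← Finset.prod_mul_distrib]
  refine Finset.prod_congr rfl fun q hq => ?_
  rw [← mul_assoc]
  congr 1
  have hne : q ≠ j := fun h => hj (h ▸ hq)
  rcases lt_or_gt_of_ne hne with h | h
  · rw [if_neg (not_lt.2 h.le), if_pos h, if_pos h, one_mul, hg]
  · rw [if_pos h, if_neg (not_lt.2 h.le), if_neg (not_lt.2 h.le), mul_one, one_mul]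

/-- `ff` only depends on `uu (Y 0)` if the first exponent is zero -/
theorem ff_first (hk : 0 < k) (b : Fin k → ℕ) (hb : b ⟨0, hk⟩ = 0) (Y Y' : Fin k → R)
    (h0 : uu (Y ⟨0, hk⟩) = uu (Y' ⟨0, hk⟩)) (h : ∀ i, i ≠ ⟨0, hk⟩ → Y i = Y' i) :
    ff b Y = ff b Y' := by
  have hu : ∀ i, uu (Y i) = uu (Y' i) := by
    intro i
    by_cases hi : i = ⟨0, hk⟩
    · rw [hi, h0]
    · rw [h i hi]
  unfold ff cc
  congr 1
  · refine Finset.prod_congr rfl fun i _ => ?_
    by_cases hi : i = ⟨0, hk⟩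
    · rw [hi, hb, pow_zero, pow_zero]
    · rw [h i hi]
  · refine Finset.prod_congr rfl fun p hp => ?_
    have hpq : p.1 < p.2 := (Finset.mem_filter.1 hp).2
    have hne : p.2 ≠ ⟨0, hk⟩ := by
      intro h1
      rw [h1] at hpq
      exact absurd hpq (Nat.not_lt_zero _)
    rw [hu, h _ hne]

end maps

section deg

open Polynomial

variable {K : Type*} [CommRing K] {k : ℕ}

theorem nd_mm (x y : K[X]) : (mm (uu x) y).natDegree ≤ 2 * x.natDegree + 2 * y.natDegree := by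
  unfold mm uu
  have h1 : (1 - x).natDegree ≤ x.natDegree :=
    (natDegree_sub_le _ _).trans (by rw [natDegree_one]; simp)
  have h2 : (1 - y).natDegree ≤ y.natDegree :=
    (natDegree_sub_le _ _).trans (by rw [natDegree_one]; simp)
  refine (natDegree_add_le _ _).trans (max_le (by omega) ?_)
  refine natDegree_mul_le.trans ?_
  have h3 := natDegree_mul_le (p := x) (q := 1 - x)
  have h4 := natDegree_pow_le (p := 1 - y) (n := 2)
  omega

theorem card_pairs (s : Fin k) :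
    ∑ p ∈ pairs k, ((if p.1 = s then 1 else 0) + (if p.2 = s then 1 else 0)) ≤ k - 1 := by
  have h1 : ∑ p ∈ pairs k, ((if p.1 = s then 1 else 0) + (if p.2 = s then 1 else 0)) =
      ∑ p ∈ pairs k, if p.1 = s ∨ p.2 = s then 1 else 0 := by
    refine Finset.sum_congr rfl fun p hp => ?_
    have hpq : p.1 < p.2 := (Finset.mem_filter.1 hp).2
    by_cases h1 : p.1 = s
    · have h2 : p.2 ≠ s := fun h => by rw [h1, h] at hpq; exact lt_irrefl _ hpq
      rw [if_pos h1, if_neg h2, if_pos (Or.inl h1)]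
    · by_cases h2 : p.2 = s
      · rw [if_neg h1, if_pos h2, if_pos (Or.inr h2)]
      · rw [if_neg h1, if_neg h2, if_neg (not_or.2 ⟨h1, h2⟩)]
  rw [h1, ← Finset.card_filter]
  have h2 : (univ.erase s).card = k - 1 := by
    rw [Finset.card_erase_of_mem (Finset.mem_univ s), Finset.card_univ, Fintype.card_fin]
  rw [← h2]
  refine Finset.card_le_card_of_injOn (fun p => if p.1 = s then p.2 else p.1) ?_ ?_
  · intro p hp
    obtain ⟨hp1, hp2⟩ := Finset.mem_filter.1 (Finset.mem_coe.1 hp)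
    have hpq : p.1 < p.2 := (Finset.mem_filter.1 hp1).2
    rw [Finset.mem_coe, Finset.mem_erase]
    refine ⟨?_, Finset.mem_univ _⟩
    show (if p.1 = s then p.2 else p.1) ≠ s
    by_cases h3 : p.1 = s
    · rw [if_pos h3]
      intro h
      rw [h3, h] at hpq
      exact lt_irrefl _ hpq
    · rw [if_neg h3]
      exact h3
  · rintro ⟨p1, p2⟩ hp ⟨q1, q2⟩ hq hpq
    obtain ⟨hp1, hp2⟩ := Finset.mem_filter.1 (Finset.mem_coe.1 hp)
    obtain ⟨hq1, hq2⟩ := Finset.mem_filter.1 (Finset.mem_coe.1 hq)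
    have hp3 : p1 < p2 := (Finset.mem_filter.1 hp1).2
    have hq3 : q1 < q2 := (Finset.mem_filter.1 hq1).2
    have h4 : (if p1 = s then p2 else p1) = if q1 = s then q2 else q1 := hpq
    have hp4 : p1 = s ∨ p2 = s := hp2
    have hq4 : q1 = s ∨ q2 = s := hq2
    by_cases hp5 : p1 = s
    · by_cases hq5 : q1 = s
      · rw [if_pos hp5, if_pos hq5] at h4
        rw [hp5, hq5, h4]
      · rw [if_pos hp5, if_neg hq5] at h4
        have hq6 := hq4.resolve_left hq5
        rw [h4, hp5] at hp3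
        rw [hq6] at hq3
        exact absurd hp3 (not_lt.2 hq3.le)
    · have hp6 := hp4.resolve_left hp5
      by_cases hq5 : q1 = s
      · rw [if_neg hp5, if_pos hq5] at h4
        rw [h4, hp6] at hp3
        rw [hq5] at hq3
        exact absurd hp3 (not_lt.2 hq3.le)
      · rw [if_neg hp5, if_neg hq5] at h4
        have hq6 := hq4.resolve_left hq5
        rw [h4, hp6, hq6]

theorem nd_cc (s : Fin k) (Y : Fin k → K[X]) (hs : (Y s).natDegree ≤ 1)
    (h : ∀ i, i ≠ s → (Y i).natDegree = 0) : (cc Y).natDegree ≤ 2 * (k - 1) := by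
  unfold cc
  refine (natDegree_prod_le _ _).trans ?_
  have hd : ∀ i, (Y i).natDegree ≤ if i = s then 1 else 0 := by
    intro i
    by_cases hi : i = s
    · rw [if_pos hi, hi]
      exact hs
    · rw [if_neg hi, h i hi]
  calc ∑ p ∈ pairs k, (mm (uu (Y p.1)) (Y p.2)).natDegree
      ≤ ∑ p ∈ pairs k, 2 * ((if p.1 = s then 1 else 0) + (if p.2 = s then 1 else 0)) := by
        refine Finset.sum_le_sum fun p _ => ?_
        have h1 := nd_mm (Y p.1) (Y p.2)
        have h2 := hd p.1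
        have h3 := hd p.2
        omega
    _ = 2 * ∑ p ∈ pairs k, ((if p.1 = s then 1 else 0) + (if p.2 = s then 1 else 0)) := by
        rw [Finset.mul_sum]
    _ ≤ _ := Nat.mul_le_mul_left 2 (card_pairs s)

theorem nd_ff (a : Fin k → ℕ) (s : Fin k) (Y : Fin k → K[X]) (hs : (Y s).natDegree ≤ 1)
    (h : ∀ i, i ≠ s → (Y i).natDegree = 0) : (ff a Y).natDegree ≤ a s + 2 * (k - 1) := by
  unfold ff
  refine natDegree_mul_le.trans (add_le_add ?_ (nd_cc s Y hs h))
  refine (natDegree_prod_le _ _).trans ?_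
  calc ∑ i, (Y i ^ a i).natDegree ≤ ∑ i, if i = s then a s else 0 := by
        refine Finset.sum_le_sum fun i _ => ?_
        have h1 := natDegree_pow_le (p := Y i) (n := a i)
        by_cases hi : i = s
        · rw [if_pos hi]
          rw [hi] at h1 ⊢
          exact h1.trans (by nlinarith)
        · rw [if_neg hi]
          rw [h i hi] at h1
          omega
    _ = a s := by rw [Finset.sum_ite_eq' univ s (fun _ => a s), if_pos (Finset.mem_univ s)]

theorem nd_psi (j : Fin k) (Y : Fin k → K[X]) (hs : (Y j).natDegree ≤ 1)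
    (h : ∀ i, i ≠ j → (Y i).natDegree = 0) : (psi Y).natDegree ≤ 3 * k - 2 := by
  unfold psi br aa
  refine natDegree_sum_le_of_forall_le _ _ fun ε _ => ?_
  refine (natDegree_smul_le _ _).trans ?_
  refine natDegree_sum_le_of_forall_le _ _ fun σ _ => ?_
  refine (natDegree_smul_le _ _).trans ?_
  have hk := j.2
  have h1 : ∀ i, (flp ε Y i).natDegree ≤ (Y i).natDegree := by
    intro i
    unfold flp
    split_ifs
    · exact (natDegree_sub_le _ _).trans (by rw [natDegree_one]; simp)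
    · exact le_rfl
  refine (nd_ff (st k) (σ.symm j) (flp ε Y ∘ σ) ?_ ?_).trans ?_
  · show (flp ε Y (σ (σ.symm j))).natDegree ≤ 1
    rw [Equiv.apply_symm_apply]
    exact (h1 j).trans hs
  · intro i hi
    show (flp ε Y (σ i)).natDegree = 0
    have h2 : σ i ≠ j := fun h3 => hi (by rw [← h3, Equiv.symm_apply_apply])
    have h3 := h1 (σ i)
    rw [h _ h2] at h3
    omega
  · have h2 := (σ.symm j).2
    unfold st
    omega

end deg

section alg

variable {K : Type*} [Field K]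

theorem alg_key (N m k' : ℕ) (hN : N = m + k' + 2) (y a U A1 A2 G1 G2 W PPd PPg L s1 s2 B Q ps f κ : K)
    (hA : A1 * A2 = G1 * G2 * W ^ 2) (hay : a * y = 1) (hy0 : y ≠ 0) (hy1 : 1 - y ≠ 0)
    (hps : ps = ((1 - 2 * a) * ((1 - 2 * y) * L) * (s1 * ((uu a - uu y) * G1) * (s2 * G2 * PPg))) *
      W * B) (hf : y ^ k' * f = W * Q)
    (hκ : κ = ((uu y * U) ^ N * (A2 * PPd))⁻¹) :
    κ * ps * f / ((1 - 2 * a) * (1 - 3 * uu y + 2 * uu a * uu y ^ 2) * uu a ^ N * A1) = 0 ∨
    κ * ps * f / ((1 - 2 * a) * (1 - 3 * uu y + 2 * uu a * uu y ^ 2) * uu a ^ N * A1) =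
      (s1 * s2 * (-1) ^ N * L * PPg * B * (U ^ N)⁻¹ * PPd⁻¹) *
        ((1 - y) * (1 + y) * y ^ m * ((1 - y)⁻¹) ^ (2 * N) * Q) := by
  by_cases hA1 : A1 = 0
  · left
    rw [hA1, mul_zero, div_zero]
  by_cases hA2 : A2 = 0
  · left
    rw [hκ, hA2, zero_mul, mul_zero, inv_zero, zero_mul, zero_mul, zero_div]
  by_cases h2a : 1 - 2 * a = 0
  · left
    rw [h2a, zero_mul, zero_mul, zero_mul, div_zero]
  by_cases hD : 1 - 3 * uu y + 2 * uu a * uu y ^ 2 = 0
  · left
    rw [hD, mul_zero, zero_mul, zero_mul, div_zero]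
  right
  have ha : a = y⁻¹ := eq_inv_of_mul_eq_one_left hay
  have e0 : uu a * uu y * y = -(1 - y) ^ 2 := by
    unfold uu
    linear_combination (1 - y) * (y - a * y - 1) * hay
  have e1 : (1 - 2 * y) * (uu a - uu y) * y ^ 2 =
      (1 - y) * (1 + y) * (1 - 3 * uu y + 2 * uu a * uu y ^ 2) := by
    rw [ha]
    unfold uu
    field_simp
    ring
  have huw : uu a * uu y = -(1 - y) ^ 2 * y⁻¹ := by
    rw [← e0]
    field_simp
  generalize uu a = ua at *
  generalize uu y = uy at *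
  generalize hDD : 1 - 3 * uy + 2 * ua * uy ^ 2 = D at *
  have f1 : (1 - 2 * a) * (1 - 2 * a)⁻¹ = 1 := mul_inv_cancel₀ h2a
  have f2 : A1⁻¹ * A2⁻¹ * (G1 * G2 * W ^ 2) = 1 := by
    rw [← hA]
    field_simp
  have f3 : (1 - 2 * y) * (ua - uy) * D⁻¹ = (1 - y) * (1 + y) * (y ^ 2)⁻¹ := by
    rw [← div_eq_mul_inv, ← div_eq_mul_inv, div_eq_div_iff hD (pow_ne_zero 2 hy0)]
    exact e1
  have f4 : uy⁻¹ * ua⁻¹ = (-1) * (y * ((1 - y)⁻¹) ^ 2) := by
    rw [← mul_inv, mul_comm uy ua, huw]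
    field_simp
  have f4' : (uy ^ N)⁻¹ * (ua ^ N)⁻¹ = (-1) ^ N * (y ^ N * ((1 - y)⁻¹) ^ (2 * N)) := by
    rw [← inv_pow, ← inv_pow, ← mul_pow, f4, mul_pow, mul_pow, ← pow_mul]
  have f5 : f = W * Q * (y ^ k')⁻¹ := by
    rw [← hf]
    field_simp
  have f6 : y ^ N * (y ^ k')⁻¹ * (y ^ 2)⁻¹ = y ^ m := by
    rw [hN, pow_add, pow_add]
    field_simp
  calc κ * ps * f / ((1 - 2 * a) * D * ua ^ N * A1)
      = ((1 - 2 * a) * (1 - 2 * a)⁻¹) * (A1⁻¹ * A2⁻¹ * (G1 * G2 * W ^ 2)) *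
        ((1 - 2 * y) * (ua - uy) * D⁻¹) * ((uy ^ N)⁻¹ * (ua ^ N)⁻¹) * (y ^ k')⁻¹ *
        (L * s1 * s2 * PPg * B * Q * (U ^ N)⁻¹ * PPd⁻¹) := by
        rw [hκ, hps, f5, div_eq_mul_inv, mul_pow]
        simp only [mul_inv]
        ring
    _ = 1 * 1 * ((1 - y) * (1 + y) * (y ^ 2)⁻¹) * ((-1) ^ N * (y ^ N * ((1 - y)⁻¹) ^ (2 * N))) *
        (y ^ k')⁻¹ * (L * s1 * s2 * PPg * B * Q * (U ^ N)⁻¹ * PPd⁻¹) := by
        rw [f1, f2, f3, f4']
    _ = (s1 * s2 * (-1) ^ N * L * PPg * B * (U ^ N)⁻¹ * PPd⁻¹) *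
        ((1 - y) * (1 + y) * (y ^ N * (y ^ k')⁻¹ * (y ^ 2)⁻¹) * ((1 - y)⁻¹) ^ (2 * N) * Q) := by
        ring
    _ = _ := by rw [f6]

end alg

end Pool.Agent.H264.GM174
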